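import Pool.Agent.Helper14.LK.St
import Pool.Agent.Helper14.LK.Basic

/-!
Project LK (MP_58b586_gt): module ASM, the stability theorem (internal form).
-/

set_option autoImplicit false

open MeasureTheory Set Filter
open scoped ContDiff Topology

namespace Pool.Agent.Helper12.LK

open Pool.Agent.Helper14.LK

variable {n : ℕ}

/-! ### the Liouville form of an isotropic map -/

/-- `α x u = - ⟪(g x).2, (Dg(x) u).1⟫` -/
private noncomputable def al (g : EE n → WW n) (x : EE n) : EE n →L[ℝ] ℝ :=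
  -((innerSL ℝ (g x).2).comp ((ContinuousLinearMap.fst ℝ (EE n) (EE n)).comp (fderiv ℝ g x)))

private theorem al_apply (g : EE n → WW n) (x u : EE n) :
    al g x u = - inner ℝ (g x).2 (fderiv ℝ g x u).1 := by
  simp [al]

private theorem al_smooth (g : EE n → WW n) (hg : ContDiff ℝ ∞ g) : ContDiff ℝ ∞ (al g) := by
  unfold al
  have h1 : ContDiff ℝ ∞ (fun x => (innerSL ℝ (g x).2 : EE n →L[ℝ] ℝ)) :=
    (innerSL ℝ (E := EE n)).contDiff.comp (contDiff_snd.comp hg)
  have h2 : ContDiff ℝ ∞ (fderiv ℝ g) := hg.fderiv_right (m := ∞) (by simp)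
  have h3 : ContDiff ℝ ∞ (fun x => (ContinuousLinearMap.fst ℝ (EE n) (EE n)).comp
      (fderiv ℝ g x)) := contDiff_const.clm_comp h2
  exact (h1.clm_comp h3).neg

private theorem al_fderiv (g : EE n → WW n) (hg : ContDiff ℝ ∞ g) (x a b : EE n) :
    fderiv ℝ (al g) x a b = - (inner ℝ (g x).2 (fderiv ℝ (fderiv ℝ g) x a b).1 +
      inner ℝ (fderiv ℝ g x a).2 (fderiv ℝ g x b).1) := by
  have hd : DifferentiableAt ℝ (al g) x :=
    (al_smooth g hg).differentiable (by simp) x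
  have e1 : fderiv ℝ (fun y => al g y b) x a = fderiv ℝ (al g) x a b := by
    have := hd.hasFDerivAt.clm_apply (hasFDerivAt_const b x)
    rw [this.fderiv]; simp
  have hg1 : HasFDerivAt g (fderiv ℝ g x) x := (hg.differentiable (by simp) x).hasFDerivAt
  have hg2 : HasFDerivAt (fderiv ℝ g) (fderiv ℝ (fderiv ℝ g) x) x :=
    ((hg.fderiv_right (m := ∞) (by simp)).differentiable (by simp) x).hasFDerivAt
  have h2 : HasFDerivAt (fun y => fderiv ℝ g y b)
      ((fderiv ℝ (fderiv ℝ g) x).flip b) x := by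
    have := hg2.clm_apply (hasFDerivAt_const b x)
    refine this.congr_fderiv ?_
    ext v <;> simp
  have h3 : HasFDerivAt (fun y => (g y).2)
      ((ContinuousLinearMap.snd ℝ (EE n) (EE n)).comp (fderiv ℝ g x)) x :=
    (ContinuousLinearMap.snd ℝ (EE n) (EE n)).hasFDerivAt.comp x hg1
  have h4 : HasFDerivAt (fun y => (fderiv ℝ g y b).1)
      ((ContinuousLinearMap.fst ℝ (EE n) (EE n)).comp ((fderiv ℝ (fderiv ℝ g) x).flip b)) x :=
    (ContinuousLinearMap.fst ℝ (EE n) (EE n)).hasFDerivAt.comp x h2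
  have h5 := (h3.inner ℝ h4).neg
  have h6 : (fun y => al g y b) = -(fun y => inner ℝ (g y).2 (fderiv ℝ g y b).1) := by
    funext y; simp [al_apply]
  rw [← e1, h6, h5.fderiv]
  simp

private theorem al_closed (g : EE n → WW n) (hg : ContDiff ℝ ∞ g)
    (hi : ∀ x u v, om (fderiv ℝ g x u) (fderiv ℝ g x v) = 0) (x a b : EE n) :
    fderiv ℝ (al g) x a b = fderiv ℝ (al g) x b a := by
  rw [al_fderiv g hg, al_fderiv g hg]
  have hs : IsSymmSndFDerivAt ℝ g x := by
    apply (hg.contDiffAt).isSymmSndFDerivAt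
    simp only [minSmoothness_of_isRCLikeNormedField]
    exact WithTop.coe_le_coe.2 (le_top : (2 : ℕ∞) ≤ ⊤)
  rw [hs.eq a b]
  have h := hi x a b
  unfold om at h
  rw [real_inner_comm (fderiv ℝ g x b).2 (fderiv ℝ g x a).1] at h
  linarith

/-! ### the flow of Moser's field -/

/-- the flow with the parameter `r` carried along -/
private theorem flow_exists (hFLO : StFLO) (V : ℝ → ℝ × WW n → WW n) (S R : ℝ)
    (hV : ContDiff ℝ ∞ (Function.uncurry V))
    (hV0 : ∀ t r w, (R ≤ ‖w‖ ∨ S ≤ |r| ∨ 1 ≤ |t|) → V t (r, w) = 0) :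
    ∃ (K : NNReal) (G Gi : ℝ → ℝ → WW n → WW n), LipschitzWith K (Function.uncurry V) ∧
      ContDiff ℝ ∞ (fun p : ℝ × ℝ × WW n => G p.1 p.2.1 p.2.2) ∧
      ContDiff ℝ ∞ (fun p : ℝ × ℝ × WW n => Gi p.1 p.2.1 p.2.2) ∧
      (∀ r w, G 0 r w = w) ∧
      (∀ t r w, HasDerivAt (fun s => G s r w) (V t (r, G t r w)) t) ∧
      (∀ t r w, G t r (Gi t r w) = w) ∧ (∀ t r w, Gi t r (G t r w) = w) ∧
      (∀ t r w, (R ≤ ‖w‖ ∨ S ≤ |r|) → G t r w = w) := by
  have hsupp : HasCompactSupport (Function.uncurry V) := by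
    apply HasCompactSupport.intro
      (K := Icc (-1 : ℝ) 1 ×ˢ (Icc (-S) S ×ˢ Metric.closedBall (0 : WW n) R))
      (isCompact_Icc.prod (isCompact_Icc.prod (isCompact_closedBall _ _)))
    rintro ⟨t, r, w⟩ hx
    by_contra hne
    apply hx
    have h0 : ¬ (R ≤ ‖w‖ ∨ S ≤ |r| ∨ 1 ≤ |t|) := fun h => hne (hV0 t r w h)
    push Not at h0
    obtain ⟨h1, h2, h3⟩ := h0
    refine ⟨⟨(abs_lt.1 h3).1.le, (abs_lt.1 h3).2.le⟩,
      ⟨(abs_lt.1 h2).1.le, (abs_lt.1 h2).2.le⟩, ?_⟩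
    rw [Metric.mem_closedBall, dist_zero_right]; exact h1.le
  obtain ⟨K, hK⟩ := ContDiff.lipschitzWith_of_hasCompactSupport hsupp hV (by simp)
  -- the field with the parameter
  set W : ℝ → ℝ × WW n → ℝ × WW n := fun t p => (0, V t p) with hW
  have hWu : Function.uncurry W = fun p => ContinuousLinearMap.inr ℝ ℝ (WW n)
      (Function.uncurry V p) := by
    funext p; obtain ⟨t, q⟩ := p; simp [hW]
  have hWs : ContDiff ℝ ∞ (Function.uncurry W) := by
    rw [hWu]; exact (ContinuousLinearMap.inr ℝ ℝ (WW n)).contDiff.comp hV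
  have hWL : LipschitzWith (‖ContinuousLinearMap.inr ℝ ℝ (WW n)‖₊ * K) (Function.uncurry W) := by
    rw [hWu]; exact (ContinuousLinearMap.inr ℝ ℝ (WW n)).lipschitz.comp hK
  obtain ⟨Φ, Φi, hΦ, hΦi, hΦ0, hΦd, hΦr, hΦl⟩ := hFLO (ℝ × WW n) W hWs ⟨_, hWL⟩
  have hc1 : ∀ t p, (Φ t p).1 = p.1 := by
    intro t p
    have hd : ∀ s, HasDerivAt (fun s => (Φ s p).1) 0 s := by
      intro s
      exact (ContinuousLinearMap.fst ℝ ℝ (WW n)).hasFDerivAt.comp_hasDerivAt s (hΦd s p)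
    have h1 := is_const_of_deriv_eq_zero (fun s => (hd s).differentiableAt)
      (fun s => (hd s).deriv) t 0
    simpa [hΦ0] using h1
  have hc2 : ∀ t p, (Φi t p).1 = p.1 := by
    intro t p
    rw [← hc1 t (Φi t p), hΦr]
  have hpr : ContDiff ℝ ∞ (fun p : ℝ × ℝ × WW n => (p.1, ((p.2.1, p.2.2) : ℝ × WW n))) :=
    contDiff_id
  refine ⟨K, fun t r w => (Φ t (r, w)).2, fun t r w => (Φi t (r, w)).2, hK, ?_, ?_, ?_, ?_, ?_,
    ?_, ?_⟩
  · exact contDiff_snd.comp hΦ
  · exact contDiff_snd.comp hΦi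
  · intro r w; simp [hΦ0]
  · intro t r w
    have h1 := (ContinuousLinearMap.snd ℝ ℝ (WW n)).hasFDerivAt.comp_hasDerivAt t (hΦd t (r, w))
    have h2 : ((r, (Φ t (r, w)).2) : ℝ × WW n) = Φ t (r, w) := Prod.ext (hc1 t (r, w)).symm rfl
    rw [h2]
    exact h1
  · intro t r w
    have h2 : ((r, (Φi t (r, w)).2) : ℝ × WW n) = Φi t (r, w) := Prod.ext (hc2 t (r, w)).symm rfl
    show (Φ t (r, (Φi t (r, w)).2)).2 = w
    rw [h2, hΦr]
  · intro t r w
    have h2 : ((r, (Φ t (r, w)).2) : ℝ × WW n) = Φ t (r, w) := Prod.ext (hc1 t (r, w)).symm rfl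
    show (Φi t (r, (Φ t (r, w)).2)).2 = w
    rw [h2, hΦl]
  · intro t r w hrw
    have hu : (fun s => Φ s (r, w)) = fun _ => (r, w) := by
      apply ODE_solution_unique_univ (v := W) (s := fun _ => univ) (t₀ := 0)
        (K := ‖ContinuousLinearMap.inr ℝ ℝ (WW n)‖₊ * K)
      · intro t
        have h1 : W t = Function.uncurry W ∘ fun p => (t, p) := rfl
        rw [h1]
        have h2 := hWL.comp (LipschitzWith.prodMk_left t : LipschitzWith 1
          (fun p : ℝ × WW n => (t, p)))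
        rw [mul_one] at h2
        exact h2.lipschitzOnWith
      · intro s; exact ⟨hΦd s (r, w), mem_univ _⟩
      · intro s
        refine ⟨?_, mem_univ _⟩
        have h1 : W s (r, w) = 0 := by
          have h3 : V s (r, w) = 0 := hV0 s r w (by tauto)
          show (0, V s (r, w)) = (0 : ℝ × WW n)
          rw [h3]; rfl
        show HasDerivAt (fun _ => ((r, w) : ℝ × WW n)) (W s (r, w)) s
        rw [h1]
        exact hasDerivAt_const s _
      · exact hΦ0 _
    have h1 := congrFun hu t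
    have h2 : Φ t (r, w) = (r, w) := h1
    show (Φ t (r, w)).2 = w
    rw [h2]

private theorem lip_zero (V : ℝ → ℝ × WW n → WW n) (K : NNReal)
    (hK : LipschitzWith K (Function.uncurry V)) :
    ∃ K' : NNReal, LipschitzWith K' (Function.uncurry fun (t : ℝ) (w : WW n) => V t (0, w)) := by
  have hL := ((ContinuousLinearMap.fst ℝ ℝ (WW n)).prod
      ((ContinuousLinearMap.inr ℝ ℝ (WW n)).comp
        (ContinuousLinearMap.snd ℝ ℝ (WW n)))).lipschitz
  have h1 := hK.comp hL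
  have h2 : (Function.uncurry fun (t : ℝ) (w : WW n) => V t (0, w)) =
      Function.uncurry V ∘ ⇑((ContinuousLinearMap.fst ℝ ℝ (WW n)).prod
        ((ContinuousLinearMap.inr ℝ ℝ (WW n)).comp
          (ContinuousLinearMap.snd ℝ ℝ (WW n)))) := by
    funext p; obtain ⟨t, w⟩ := p; simp
  rw [← h2] at h1
  exact ⟨_, h1⟩

/-- step 8 -/
private theorem isotopy_of (S R : ℝ) (Φ : ℝ → WW n → WW n) (H : ℝ → WW n → ℝ)
    (hHs : ContDiff ℝ ∞ (Function.uncurry H)) (hHR : ∀ r w, R ≤ ‖w‖ → H r w = 0)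
    (hHd : ∀ r w, ∃ v : WW n, HasDerivAt (fun s => Φ s w) v r ∧
      ∀ b, om v b = fderiv ℝ (H r) (Φ r w) b)
    (hΦS : ∀ w, Φ S w = w) :
    IsHamIsotopy (fun t w => -S * H (S * (1 - t)) w) (fun t w => Φ (S * (1 - t)) w) := by
  refine ⟨?_, ?_, ?_, ?_⟩
  · have h1 : ContDiff ℝ ∞ (fun p : ℝ × WW n => ((S * (1 - p.1), p.2) : ℝ × WW n)) :=
      (contDiff_const.mul (contDiff_const.sub contDiff_fst)).prodMk contDiff_snd
    have h2 : ContDiff ℝ ∞ (fun p : ℝ × WW n => Function.uncurry H (S * (1 - p.1), p.2)) :=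
      hHs.comp h1
    have h3 : ContDiff ℝ ∞ (fun p : ℝ × WW n =>
        -S * Function.uncurry H (S * (1 - p.1), p.2)) := contDiff_const.mul h2
    exact h3
  · refine ⟨Metric.closedBall 0 R, isCompact_closedBall _ _, ?_⟩
    intro t w hw
    rw [Metric.mem_closedBall, dist_zero_right, not_le] at hw
    show -S * H (S * (1 - t)) w = 0
    rw [hHR _ _ hw.le, mul_zero]
  · intro w
    show Φ (S * (1 - 0)) w = w
    rw [sub_zero, mul_one]
    exact hΦS w
  · intro t w
    obtain ⟨v, hv, hvb⟩ := hHd (S * (1 - t)) w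
    refine ⟨(-S) • v, ?_, ?_⟩
    · have h1 : HasDerivAt (fun s : ℝ => S * (1 - s)) (-S) t := by
        have := ((hasDerivAt_id t).const_sub 1).const_mul S
        simpa using this
      have h2 : HasDerivAt ((fun s => Φ s w) ∘ fun s : ℝ => S * (1 - s)) ((-S) • v) t :=
        HasDerivAt.scomp t hv h1
      exact h2
    · intro b
      rw [om_smul_left, hvb]
      have h1 : ContDiff ℝ ∞ (H (S * (1 - t))) := hHs.comp (contDiff_const.prodMk contDiff_id)
      have h2 : HasFDerivAt (H (S * (1 - t))) (fderiv ℝ (H (S * (1 - t))) (Φ (S * (1 - t)) w))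
          (Φ (S * (1 - t)) w) := (h1.differentiable (by simp) _).hasFDerivAt
      have h3 : HasFDerivAt (fun w => -S * H (S * (1 - t)) w)
          ((-S) • fderiv ℝ (H (S * (1 - t))) (Φ (S * (1 - t)) w))
          (Φ (S * (1 - t)) w) := h2.const_mul (-S)
      show _ = fderiv ℝ (fun w => -S * H (S * (1 - t)) w) (Φ (S * (1 - t)) w) b
      rw [h3.fderiv]; rfl

/-! ### the theorem -/

/-- ASM: the stability theorem, internal form -/
theorem hASM (hFLO : StFLO) (hPOI : StPOI) (hBIJ : StBIJ) (hMOS : StMOS) (hSIG : StSIG)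
    (hVEF : StVEF) (hHAM : StHAM) (hTAN : StTAN) : StASM := by
  intro n hn F S R hS hF hFS hFR htame hiso
  have hFr : ∀ r, ContDiff ℝ ∞ (F r) := fun r => hF.comp (contDiff_const.prodMk contDiff_id)
  -- step 1
  set g : EE n → WW n := fun x => F 0 (x, 0) with hg
  have hgs : ContDiff ℝ ∞ g := (hFr 0).comp (contDiff_id.prodMk contDiff_const)
  have hgd : ∀ x u, fderiv ℝ g x u = fderiv ℝ (F 0) (x, 0) (u, 0) := by
    intro x u
    have h1 : HasFDerivAt (F 0) (fderiv ℝ (F 0) (x, 0)) (x, 0) :=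
      ((hFr 0).differentiable (by simp) (x, 0)).hasFDerivAt
    have h2 : HasFDerivAt (fun x : EE n => ((x, 0) : WW n))
        (ContinuousLinearMap.inl ℝ (EE n) (EE n)) x :=
      (ContinuousLinearMap.inl ℝ (EE n) (EE n)).hasFDerivAt
    have h3 : HasFDerivAt g ((fderiv ℝ (F 0) (x, 0)).comp
      (ContinuousLinearMap.inl ℝ (EE n) (EE n))) x := h1.comp x h2
    rw [h3.fderiv]; simp
  have hgi : ∀ x u v, om (fderiv ℝ g x u) (fderiv ℝ g x v) = 0 := by
    intro x u v; rw [hgd, hgd]; exact hiso x u v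
  have hgR : ∀ x, R ≤ ‖x‖ → g x = (x, 0) := by
    intro x hx
    apply hFR
    simpa [Prod.norm_def] using hx
  obtain ⟨h, hhs, hhd, hhR⟩ := hPOI (EE n) (by simpa using hn) (fun _ => al g)
    ((al_smooth g hgs).comp contDiff_snd) (fun _ v a b => al_closed g hgs hgi v a b) R
    (by
      intro _ x hx
      ext u
      rw [al_apply, hgR x hx]; simp)
  have hfs : ContDiff ℝ ∞ (h 0) := hhs.comp (contDiff_const.prodMk contDiff_id)
  -- step 2
  obtain ⟨σ, R₁, hσs, hσd, hσR, hσS, hσ0⟩ := hSIG n F (h 0) S R hS hF hfs hFS hFR (hhR 0)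
    (by
      intro x u
      rw [hhd, al_apply, hgd])
  set R' := max R₁ R with hR'
  obtain ⟨β, V, hβ, hβ0, hβ1, hVs, hVe, hV0, hVt⟩ := hVEF n F σ S R' hF hσs
    (fun r w hw => hσR r w ((le_max_left _ _).trans hw)) hσS hσ0 htame hiso
  -- step 3
  obtain ⟨K, G, Gi, hK, hGs, hGis, hG0, hGd, hGr, hGl, hGid⟩ := flow_exists hFLO V S R' hVs hV0
  have hGrs : ∀ r, ContDiff ℝ ∞ (Function.uncurry fun t w => G t r w) := by
    intro r
    have h1 : ContDiff ℝ ∞ (fun p : ℝ × WW n => ((p.1, r, p.2) : ℝ × ℝ × WW n)) :=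
      contDiff_fst.prodMk (contDiff_const.prodMk contDiff_snd)
    exact hGs.comp h1
  have hVrs : ∀ r, ContDiff ℝ ∞ (Function.uncurry fun t w => V t (r, w)) := by
    intro r
    have h1 : ContDiff ℝ ∞ (fun p : ℝ × WW n => ((p.1, r, p.2) : ℝ × ℝ × WW n)) :=
      contDiff_fst.prodMk (contDiff_const.prodMk contDiff_snd)
    exact hVs.comp h1
  have hG1 : ContDiff ℝ ∞ (fun p : ℝ × WW n => G 1 p.1 p.2) := by
    have h1 : ContDiff ℝ ∞ (fun p : ℝ × WW n => ((1, p.1, p.2) : ℝ × ℝ × WW n)) :=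
      contDiff_const.prodMk (contDiff_fst.prodMk contDiff_snd)
    exact hGs.comp h1
  have hGi1 : ContDiff ℝ ∞ (fun p : ℝ × WW n => Gi 1 p.1 p.2) := by
    have h1 : ContDiff ℝ ∞ (fun p : ℝ × WW n => ((1, p.1, p.2) : ℝ × ℝ × WW n)) :=
      contDiff_const.prodMk (contDiff_fst.prodMk contDiff_snd)
    exact hGis.comp h1
  -- step 4
  have hsym : ∀ r w a b, om (fderiv ℝ (F r) (G 1 r w) (fderiv ℝ (G 1 r) w a))
      (fderiv ℝ (F r) (G 1 r w) (fderiv ℝ (G 1 r) w b)) = om a b := by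
    intro r w a b
    have h1 := hMOS n (F r) (σ r) β (fun t w => V t (r, w)) (fun t w => G t r w) (hFr r)
      (hσs.comp (contDiff_const.prodMk contDiff_id)) hβ (hVrs r) (hGrs r)
      (hG0 r) (fun t w => hGd t r w) (hσd r) (fun t w b => hVe t r w b) hβ0 1 w a b
    rw [hβ1] at h1
    simpa using h1
  -- step 5
  obtain ⟨Fi, hFis, hFr', hFl'⟩ := hBIJ (WW n) F hF (by
      intro r v a ha
      by_contra hne
      have h1 := htame r v a hne
      rw [ha, om_zero_left] at h1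
      exact lt_irrefl _ h1) R hFR
  set Φ : ℝ → WW n → WW n := fun r w => F r (G 1 r w) with hΦ
  set Φi : ℝ → WW n → WW n := fun r w => Gi 1 r (Fi r w) with hΦi
  have hΦs : ContDiff ℝ ∞ (Function.uncurry Φ) := hF.comp (contDiff_fst.prodMk hG1)
  have hΦis : ContDiff ℝ ∞ (Function.uncurry Φi) := hGi1.comp (contDiff_fst.prodMk hFis)
  have hΦr : ∀ r w, Φ r (Φi r w) = w := by
    intro r w
    show F r (G 1 r (Gi 1 r (Fi r w))) = w
    rw [hGr, hFr']
  have hΦl : ∀ r w, Φi r (Φ r w) = w := by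
    intro r w
    show Gi 1 r (Fi r (F r (G 1 r w))) = w
    rw [hFl', hGl]
  have hΦd : ∀ r w a, fderiv ℝ (Φ r) w a =
      fderiv ℝ (F r) (G 1 r w) (fderiv ℝ (G 1 r) w a) := by
    intro r w a
    have h1 : HasFDerivAt (F r) (fderiv ℝ (F r) (G 1 r w)) (G 1 r w) :=
      ((hFr r).differentiable (by simp) _).hasFDerivAt
    have h2s : ContDiff ℝ ∞ (G 1 r) := (hG1.comp (contDiff_const.prodMk contDiff_id) :
      ContDiff ℝ ∞ fun w => G 1 r w)
    have h2 : HasFDerivAt (G 1 r) (fderiv ℝ (G 1 r) w) w :=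
      (h2s.differentiable (by simp) w).hasFDerivAt
    have h3 : HasFDerivAt (Φ r) ((fderiv ℝ (F r) (G 1 r w)).comp (fderiv ℝ (G 1 r) w)) w :=
      h1.comp w h2
    rw [h3.fderiv]; rfl
  have hΦR : ∀ r w, R' ≤ ‖w‖ → Φ r w = w := by
    intro r w hw
    show F r (G 1 r w) = w
    rw [hGid 1 r w (Or.inl hw)]
    exact hFR r w ((le_max_right _ _).trans hw)
  have hΦS : ∀ r w, S ≤ |r| → Φ r w = w := by
    intro r w hr
    show F r (G 1 r w) = w
    rw [hGid 1 r w (Or.inr hr)]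
    exact hFS r w hr
  -- step 6
  obtain ⟨H, hHs, hHR, hHd⟩ := hHAM n (by omega) Φ Φi R' hΦs hΦis hΦr hΦl
    (by intro r w a b; rw [hΦd, hΦd]; exact hsym r w a b) hΦR
  -- step 7
  have hL : ∃ K' : NNReal, LipschitzWith K' (Function.uncurry fun t w => V t (0, w)) := by
    exact lip_zero V K hK
  have hplane : Φ 0 '' Plane n = F 0 '' Plane n := by
    have h1 := hTAN n (fun t w => V t (0, w)) (fun t w => G t 0 w) (hVrs 0) hL (hG0 0)
      (fun t w => hGd t 0 w) hVt 1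
    have h2 : (fun w => G 1 0 w) '' Plane n = Plane n := h1
    have h3 : Φ 0 '' Plane n = F 0 '' ((fun w => G 1 0 w) '' Plane n) := by
      rw [image_image]
    rw [h3, h2]
  -- step 8
  refine ⟨fun t w => -S * H (S * (1 - t)) w, fun t w => Φ (S * (1 - t)) w,
    isotopy_of S R' Φ H hHs hHR hHd (fun w => hΦS S w (le_abs_self S)), ?_⟩
  show Φ (S * (1 - 1)) '' Plane n = F 0 '' Plane n
  rw [sub_self, mul_zero]
  exact hplane

end Pool.Agent.Helper12.LK
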